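import Mathlib
import Pool.Agent.X198.GRev2

/-!
# MP_f1805c_gt: countably compact `g`-reversible groups need not be minimal

There is an abelian Hausdorff topological group in which the closure of every countable set is
compact (so it is countably compact and pseudocompact), all of whose continuous automorphisms are
open, and which admits a strictly coarser Hausdorff group topology. This answers Q1 and Q2, in the
general and in the abelian version, in the negative.

The group: let `(aᵢ)` be an uncountable `ℤ`-independent family in `2ℤ₂` and let `G` be the group of
all homomorphisms `χ : ℤ₂ → T` vanishing at all but countably many `aᵢ`, with the topology of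
pointwise convergence.
-/

set_option autoImplicit false

namespace Pool.Agent.Results.MP_f1805c_gt.NotMinimal

open Pool.Agent.X198.GRev

theorem result : ∃ (G : Type) (_ : AddCommGroup G) (_ : TopologicalSpace G),
    IsTopologicalAddGroup G ∧ T2Space G ∧ OmegaBounded G ∧ CountablyCompactSpace G ∧
      Pseudocompact G ∧ GReversible G ∧ ¬ IsMinimalGroup G :=
  main

end Pool.Agent.Results.MP_f1805c_gt.NotMinimal
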